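import Pool.Agent.K3h25.Tate3

/-!
Tate cohomology of a `σ`-fixed admissible representation is admissible.

`F` is a local function field of characteristic `ℓ`, `p` a prime different from `ℓ`, `k` a field of
characteristic `p`, `G` a closed subgroup of `GL n F` (for instance the group of `F`-points of a
reductive group over `F`), `σ` a continuous automorphism of `G` with `σ ^ p = 1`, `ρ` an admissible
representation of `G` on a `k`-vector space `V`, and `S` an operator on `V` with `S ^ p = 1` and
`S (ρ g v) = ρ (σ g) (S v)`, that is, an extension of `ρ` to the semidirect product of `G` with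
the group generated by `σ`.  Then `T⁰ = ker (1 - S) / N V` and `T¹ = ker N / (1 - S) V`, where
`N = 1 + S + ... + S ^ (p - 1)`, are admissible representations of the group of fixed points
of `σ`.

The proof: let `K` be a `σ`-stable compact open subgroup whose open subgroups all have index prime
to `p`.  A coset `g W` of a `σ`-stable open subgroup `W` of `K` which is stable under `σ` contains a
fixed point of `σ`.  Averaging a vector over `K / W`, the orbits of length `p` contribute an element
of the image of `N` (of `1 - S`), and the cosets fixed by `σ` act through fixed points of `σ`; so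
every class in `Tⁱ` invariant under the fixed points of `σ` in `K` comes from a vector
invariant under `K`.
-/

set_option autoImplicit false

open Matrix

theorem Pool.Agent.Results.MP_60b77b_nt.TateAdmissible.result
    {F : Type*} [NontriviallyNormedField F] [LocallyCompactSpace F]
    (ℓ : ℕ) [Fact ℓ.Prime] [CharP F ℓ] (p : ℕ) [Fact p.Prime] (hℓp : ℓ ≠ p)
    {k : Type*} [Field k] [CharP k p]
    {n : ℕ} (G : Subgroup (GL (Fin n) F)) (hG : IsClosed (G : Set (GL (Fin n) F)))
    (σ : G →* G) (hσc : Continuous σ) (hσp : ∀ g, σ^[p] g = g)
    {V : Type*} [AddCommGroup V] [Module k V]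
    (ρ : Representation k G V) (hρ : Pool.Agent.K3h25.Tate.IsAdmissible ρ)
    (S : V →ₗ[k] V) (hSp : S ^ p = 1) (hS : ∀ g v, S (ρ g v) = ρ (σ g) (S v)) :
    Pool.Agent.K3h25.Tate.IsAdmissible (Pool.Agent.K3h25.Tate.tate0 ρ σ p S hS) ∧
    Pool.Agent.K3h25.Tate.IsAdmissible (Pool.Agent.K3h25.Tate.tate1 ρ σ p S hS) :=
  Pool.Agent.K3h25.Tate.main ℓ p hℓp G hG σ hσc hσp ρ hρ S hSp hS
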